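import Pool.Agent.Helper99.EXC.GoalsE

/-! # EXC ENV: the good scales have probability at least one half -/

open Finset MeasureTheory ProbabilityTheory Filter
open scoped ENNReal

namespace Pool.Agent.Helper49.EXC

open Pool.Agent.Helper99.ERW Pool.Agent.Helper99.EXC

/-- `∑ 1/√k ≤ 2 √s`. -/
lemma sum_inv_sqrt (s : ℕ) : ∑ k ∈ range (s + 1), 1 / Real.sqrt (k : ℝ) ≤ 2 * Real.sqrt s := by
  induction s with
  | zero => simp
  | succ s ih =>
    rw [sum_range_succ]
    have hs : 0 ≤ Real.sqrt (s : ℝ) := Real.sqrt_nonneg _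
    have hs1 : 0 < Real.sqrt ((s + 1 : ℕ) : ℝ) := Real.sqrt_pos.mpr (by positivity)
    have e1 : Real.sqrt (s : ℝ) ^ 2 = s := Real.sq_sqrt (by positivity)
    have e2 : Real.sqrt ((s + 1 : ℕ) : ℝ) ^ 2 = s + 1 := by
      rw [Real.sq_sqrt (by positivity)]; push_cast; ring
    set u := Real.sqrt (s : ℝ)
    set v := Real.sqrt ((s + 1 : ℕ) : ℝ)
    have h1 : 1 / v ≤ 2 * (v - u) := by
      rw [div_le_iff₀ hs1]
      have : u ≤ v := by
        apply Real.sqrt_le_sqrt
        push_cast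
        linarith
      nlinarith
    linarith

/-- The dominating function of `uu`. -/
noncomputable def GG (V : Site 2 → ℝ) (Tl : Site 2 → ℕ → ℝ) (Si : Site 2 → ℝ)
    (Φ : ℕ → Site 2 → ℝ) (b J k s : ℕ) (ε : ℝ) : ℝ :=
  (1 + J) * (qq V b k s + 1 + aa V b k ^ 2) +
    ((ee Tl b J k ^ 2 / ε ^ 2 + ε ^ 2 * aa V b k ^ 2) / 2 * (Real.sqrt (s + 1) / ε) +
      ε / Real.sqrt (s + 1) * (s + 1 + ww V b s)) / 2 + qq V b k s +
    (ci Φ Si b k ^ 2 * (Real.sqrt (s + 1) / ε) + ε / Real.sqrt (s + 1) * (s + 1 + ww V b s)) / 2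

lemma uu_le (V : Site 2 → ℝ) (Tl : Site 2 → ℕ → ℝ) (Si : Site 2 → ℝ)
    (Φ : ℕ → Site 2 → ℝ) (b J k s : ℕ) (ε : ℝ) (hV : ∀ z, 0 ≤ V z) (hT : ∀ z, 0 ≤ Tl z J)
    (hk : 1 ≤ k) (hε : 0 < ε) :
    uu V Tl Si Φ b J k s ≤ 1 / Real.sqrt k * GG V Tl Si Φ b J k s ε := by
  have hA : 0 ≤ aa V b k := by
    unfold aa
    exact div_nonneg (sum_nonneg fun z _ => hV z) (by positivity)
  have hE : 0 ≤ ee Tl b J k := by
    unfold ee
    exact div_nonneg (sum_nonneg fun z _ => hT z) (by positivity)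
  have hq : 1 ≤ qq V b k s := by
    unfold qq bb
    have : 0 ≤ (∑ z ∈ Bx b (k + 1), V z ^ 2) / 4 ^ k :=
      div_nonneg (sum_nonneg fun z _ => sq_nonneg _) (by positivity)
    nlinarith [sq_nonneg (tt V b k s)]
  have hw : 0 ≤ ww V b s := by
    unfold ww
    exact sum_nonneg fun z _ => div_nonneg (hV z) (by positivity)
  have hr : 0 < Real.sqrt ((s : ℝ) + 1) := Real.sqrt_pos.mpr (by positivity)
  have hr2 : Real.sqrt ((s : ℝ) + 1) ^ 2 = s + 1 := Real.sq_sqrt (by positivity)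
  unfold uu GG
  set A := aa V b k
  set E := ee Tl b J k
  set q := qq V b k s
  set w := ww V b s
  set c := ci Φ Si b k
  set r := Real.sqrt ((s : ℝ) + 1)
  have hJ : (0 : ℝ) ≤ J := by positivity
  rw [Real.sqrt_div' _ (by positivity : (0 : ℝ) ≤ k), div_eq_mul_inv, mul_comm, ← one_div]
  apply mul_le_mul_of_nonneg_left _ (by positivity)
  have hy : 0 < (s : ℝ) + 1 + w := by positivity
  set y := (s : ℝ) + 1 + w
  set gA := (1 + (J : ℝ)) * (q + 1 + A ^ 2) with hgA
  set p := (E ^ 2 / ε ^ 2 + ε ^ 2 * A ^ 2) / 2 * (r / ε) with hp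
  set t := ε / r * y with ht
  set p' := c ^ 2 * (r / ε) with hp'
  have hp0 : 0 ≤ p := by positivity
  have ht0 : 0 ≤ t := by positivity
  have hp'0 : 0 ≤ p' := by positivity
  have hgA0 : 0 ≤ gA := by positivity
  have h1 : (1 + (J : ℝ)) * q * A ≤ gA ^ 2 := by
    rw [hgA]
    have h11 : q * A ≤ (q + 1 + A ^ 2) ^ 2 := by
      have : A ≤ 1 + A ^ 2 := by nlinarith [sq_nonneg (A - 1)]
      have : q * A ≤ (q + 1 + A ^ 2) * (q + 1 + A ^ 2) :=
        mul_le_mul (by nlinarith [sq_nonneg A]) (by linarith) hA (by positivity)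
      nlinarith
    have h12 : (1 + (J : ℝ)) ≤ (1 + J) ^ 2 := by nlinarith
    calc (1 + (J : ℝ)) * q * A = (1 + J) * (q * A) := by ring
      _ ≤ (1 + J) ^ 2 * (q + 1 + A ^ 2) ^ 2 :=
        mul_le_mul h12 h11 (by positivity) (by positivity)
      _ = _ := by ring
  have h2 : E * y * A ≤ ((p + t) / 2) ^ 2 := by
    have h21 : E * A ≤ (E ^ 2 / ε ^ 2 + ε ^ 2 * A ^ 2) / 2 := by
      have : 0 ≤ (E / ε - ε * A) ^ 2 := sq_nonneg _
      have h3 : (E / ε - ε * A) ^ 2 = E ^ 2 / ε ^ 2 + ε ^ 2 * A ^ 2 - 2 * (E * A) := by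
        field_simp
        ring
      linarith
    have h22 : p * t = (E ^ 2 / ε ^ 2 + ε ^ 2 * A ^ 2) / 2 * y := by
      rw [hp, ht]
      field_simp
    have h23 : p * t ≤ ((p + t) / 2) ^ 2 := by nlinarith [sq_nonneg (p - t)]
    calc E * y * A = E * A * y := by ring
      _ ≤ (E ^ 2 / ε ^ 2 + ε ^ 2 * A ^ 2) / 2 * y := mul_le_mul_of_nonneg_right h21 hy.le
      _ = p * t := h22.symm
      _ ≤ _ := h23
  have h4 : c ^ 2 * y ≤ ((p' + t) / 2) ^ 2 := by
    have h22 : p' * t = c ^ 2 * y := by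
      rw [hp', ht]
      field_simp
    nlinarith [sq_nonneg (p' - t)]
  have h3 : q ≤ q ^ 2 := by nlinarith
  apply Real.sqrt_le_iff.mpr
  constructor
  · positivity
  · have e : ((1 + (J : ℝ)) * q + E * y) * A + q + c ^ 2 * y =
        (1 + J) * q * A + E * y * A + q + c ^ 2 * y := by ring
    rw [e]
    have hb : 0 ≤ (p + t) / 2 := by positivity
    have hb' : 0 ≤ (p' + t) / 2 := by positivity
    have hq0 : 0 ≤ q := by linarith
    have : gA ^ 2 + ((p + t) / 2) ^ 2 + q ^ 2 + ((p' + t) / 2) ^ 2 ≤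
        (gA + (p + t) / 2 + q + (p' + t) / 2) ^ 2 := by
      have m1 := mul_nonneg hgA0 hb
      have m2 := mul_nonneg hgA0 hq0
      have m3 := mul_nonneg hgA0 hb'
      have m4 := mul_nonneg hb hq0
      have m5 := mul_nonneg hb hb'
      have m6 := mul_nonneg hq0 hb'
      nlinarith
    linarith

/-- Moments of a stationary field: integrability and the bounds used below. -/
lemma lin_sq (P : Measure (Env 2)) [IsProbabilityMeasure P] (f : Stack 2 → ℝ)
    (hf : ∀ z, MemLp (fun ω : Env 2 => f (ω z)) 2 P) (B : Finset (Site 2)) (w : Site 2 → ℝ) :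
    Integrable (fun ω : Env 2 => (∑ z ∈ B, w z * f (ω z)) ^ 2) P := by
  have h : MemLp (fun ω : Env 2 => ∑ z ∈ B, w z * f (ω z)) 2 P :=
    memLp_finset_sum B fun z _ => (hf z).const_mul (w z)
  exact h.integrable_sq

theorem ENV (hGME : GME_stmt) (hSTA : STA_stmt) (hMET : MET_stmt) (hTJZ : TJZ_stmt)
    (hLAT : LAT_stmt) : ENV_stmt := by
  intro P _ hSE a W ha0 ha1 hW hWb φ Φ κ C b k1 hS δ hδ
  obtain ⟨hmV, hmT, hmS, -⟩ := hGME a
  obtain ⟨hae, htail⟩ := hTJZ P a W hW hWb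
  obtain ⟨L, hL0, hL1, hL2, hL3, -⟩ := hLAT b hS.bone
  have hm0 : Measurable (fun ω : Env 2 => ω 0) := measurable_pi_apply 0
  have hV2 : MemLp (fun ω : Env 2 => Vs a (ω 0)) 2 P := by
    apply hW.mono (hmV.comp hm0).aestronglyMeasurable
    filter_upwards [hae] with ω h
    show |Vs a (ω 0)| ≤ |W (ω 0)|
    rw [abs_of_nonneg ((h.2.2.2 0).1.trans (h.2.2.2 0).2)]
    exact h.2.1.trans (le_abs_self _)
  have hT2 : ∀ J, MemLp (fun ω : Env 2 => Ts a (ω 0) J) 2 P := by
    intro J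
    apply hW.mono ((hmT J).comp hm0).aestronglyMeasurable
    filter_upwards [hae] with ω h
    show |Ts a (ω 0) J| ≤ |W (ω 0)|
    rw [abs_of_nonneg (h.2.2.2 J).1]
    exact ((h.2.2.2 J).2.trans h.2.1).trans (le_abs_self _)
  have hS2 : MemLp (fun ω : Env 2 => Ss a (ω 0)) 2 P := by
    apply hW.mono (hmS.comp hm0).aestronglyMeasurable
    filter_upwards [hae] with ω h
    rw [Real.norm_eq_abs, Real.norm_eq_abs]
    exact h.2.2.1.trans (le_abs_self _)
  obtain ⟨vL, vsq, vm, vB⟩ := hSTA P hSE (Vs a) hmV hV2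
  have tSTA := fun J => hSTA P hSE (fun σ => Ts a σ J) (hmT J) (hT2 J)
  obtain ⟨sL, -, -, -⟩ := hSTA P hSE (Ss a) hmS hS2
  have hci := hMET P hSE (Ss a) hmS hS2 (hk Φ) C b k1 hS.hS hS.h1 hS.hL hS.h0
  have hVn : ∀ σ : Stack 2, 0 ≤ Vs a σ := fun σ => ENNReal.toReal_nonneg
  have hTn : ∀ (σ : Stack 2) (j : ℕ), 0 ≤ Ts a σ j := fun σ j => ENNReal.toReal_nonneg
  set m2 := ∫ ω, Vs a (ω 0) ^ 2 ∂P with hm2
  set m1 := ∫ ω, Vs a (ω 0) ∂P with hm1
  have hm20 : 0 ≤ m2 := integral_nonneg fun ω => sq_nonneg _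
  have hm10 : 0 ≤ m1 := integral_nonneg fun ω => hVn _
  -- integrability
  have iaa : ∀ k, Integrable (fun ω : Env 2 => aa (fun z => Vs a (ω z)) b k ^ 2) P := by
    intro k
    have := lin_sq P (Vs a) vL (Bx b (k + 1)) (fun _ => 1 / 4 ^ k)
    refine this.congr (Eventually.of_forall fun ω => ?_)
    simp only [aa]
    rw [← mul_sum, one_div, inv_mul_eq_div]
  have Eaa : ∀ k, ∫ ω : Env 2, aa (fun z => Vs a (ω z)) b k ^ 2 ∂P ≤ L ^ 2 * m2 := by
    intro k
    have h := vB (Bx b (k + 1)) (fun _ => 1 / 4 ^ k)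
    have e : ∀ ω : Env 2, aa (fun z => Vs a (ω z)) b k ^ 2 =
        (∑ z ∈ Bx b (k + 1), 1 / 4 ^ k * Vs a (ω z)) ^ 2 := by
      intro ω
      simp only [aa]
      rw [← mul_sum, one_div, inv_mul_eq_div]
    simp only [e]
    refine h.trans (mul_le_mul_of_nonneg_right ?_ hm20)
    apply pow_le_pow_left₀ (sum_nonneg fun _ _ => abs_nonneg _)
    rw [sum_const, nsmul_eq_mul, abs_of_nonneg (by positivity)]
    have := hL1 k
    rw [mul_one_div, div_le_iff₀ (by positivity)]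
    exact this
  have ibb : ∀ k, Integrable (fun ω : Env 2 => bb (fun z => Vs a (ω z)) b k) P := by
    intro k
    simp only [bb]
    exact (integrable_finset_sum _ fun z _ => (vL z).integrable_sq).div_const _
  have Ebb : ∀ k, ∫ ω : Env 2, bb (fun z => Vs a (ω z)) b k ∂P ≤ L * m2 := by
    intro k
    simp only [bb]
    rw [integral_div, integral_finset_sum _ fun z _ => (vL z).integrable_sq]
    simp only [vsq]
    rw [sum_const, nsmul_eq_mul, div_le_iff₀ (by positivity)]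
    nlinarith [mul_le_mul_of_nonneg_right (hL1 k) hm20]
  have itt : ∀ k s, Integrable (fun ω : Env 2 => tt (fun z => Vs a (ω z)) b k s ^ 2) P :=
    fun k s => lin_sq P (Vs a) vL _ _
  have Ett : ∀ k s, ∫ ω : Env 2, tt (fun z => Vs a (ω z)) b k s ^ 2 ∂P ≤ L ^ 2 * m2 := by
    intro k s
    refine (vB (Bx b (s + 1) \ Bx b (k + 1)) (fun y => 2 ^ k / (1 + nm y) ^ 3)).trans
      (mul_le_mul_of_nonneg_right ?_ hm20)
    apply pow_le_pow_left₀ (sum_nonneg fun _ _ => abs_nonneg _)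
    refine le_trans (le_of_eq (sum_congr rfl fun y _ => abs_of_nonneg ?_)) (hL3 k s)
    have : 0 ≤ nm y := le_max_of_le_left (abs_nonneg _)
    positivity
  have iww : ∀ s, Integrable (fun ω : Env 2 => ww (fun z => Vs a (ω z)) b s) P := by
    intro s
    simp only [ww]
    exact integrable_finset_sum _ fun z _ => ((vL z).integrable one_le_two).div_const _
  have Eww : ∀ s : ℕ, ∫ ω : Env 2, ww (fun z => Vs a (ω z)) b s ∂P ≤ L * m1 * (s + 1) := by
    intro s
    simp only [ww]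
    rw [integral_finset_sum _ fun z _ => ((vL z).integrable one_le_two).div_const _]
    simp only [integral_div, vm]
    have : ∑ z ∈ Bx b (s + 1), m1 / (1 + nm z) ^ 2 =
        m1 * ∑ z ∈ Bx b (s + 1), 1 / (1 + nm z) ^ 2 := by
      rw [mul_sum]
      exact sum_congr rfl fun z _ => by ring
    rw [this]
    nlinarith [mul_le_mul_of_nonneg_left (hL2 s) hm10]
  have iee : ∀ J k, Integrable (fun ω : Env 2 => ee (fun z => Ts a (ω z)) b J k ^ 2) P := by
    intro J k
    have := lin_sq P (fun σ => Ts a σ J) (tSTA J).1 (Bx b (k + 1)) (fun _ => 1 / 4 ^ k)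
    refine this.congr (Eventually.of_forall fun ω => ?_)
    simp only [ee]
    rw [← mul_sum, one_div, inv_mul_eq_div]
  have Eee : ∀ J k, ∫ ω : Env 2, ee (fun z => Ts a (ω z)) b J k ^ 2 ∂P ≤
      L ^ 2 * ∫ ω, Ts a (ω 0) J ^ 2 ∂P := by
    intro J k
    have h := (tSTA J).2.2.2 (Bx b (k + 1)) (fun _ => 1 / 4 ^ k)
    have e : ∀ ω : Env 2, ee (fun z => Ts a (ω z)) b J k ^ 2 =
        (∑ z ∈ Bx b (k + 1), 1 / 4 ^ k * Ts a (ω z) J) ^ 2 := by
      intro ω
      simp only [ee]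
      rw [← mul_sum, one_div, inv_mul_eq_div]
    simp only [e]
    refine h.trans (mul_le_mul_of_nonneg_right ?_ (integral_nonneg fun ω => sq_nonneg _))
    apply pow_le_pow_left₀ (sum_nonneg fun _ _ => abs_nonneg _)
    rw [sum_const, nsmul_eq_mul, abs_of_nonneg (by positivity)]
    have := hL1 k
    rw [mul_one_div, div_le_iff₀ (by positivity)]
    exact this
  have ici : ∀ k, Integrable (fun ω : Env 2 => ci Φ (fun z => Ss a (ω z)) b k ^ 2) P :=
    fun k => lin_sq P (Ss a) sL _ _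
  have hci' : Tendsto (fun k => ∫ ω : Env 2, ci Φ (fun z => Ss a (ω z)) b k ^ 2 ∂P) atTop
      (nhds 0) := hci
  set K2 := (L ^ 2 + L ^ 2 * m2) / 4 + (1 + L * m1) with hK2
  have hK20 : 0 < K2 := by positivity
  set ε := δ / (8 * (4 * K2 + 2)) with hε
  have hε0 : 0 < ε := by positivity
  have hεδ : ε * (4 * K2 + 2) = δ / 8 := by
    rw [hε]
    field_simp
  obtain ⟨J, hJ⟩ := (htail.eventually_le_const (by positivity : (0 : ℝ) < ε ^ 4)).exists
  obtain ⟨kε, hkε⟩ := eventually_atTop.mp (hci'.eventually_le_const (by positivity : (0 : ℝ) < ε ^ 2))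
  set Q := 1 + L * m2 + L ^ 2 * m2 with hQ
  have hQ0 : 0 ≤ Q := by positivity
  set K1 := (1 + (J : ℝ)) * (Q + 1 + L ^ 2 * m2) + Q with hK1
  have hK10 : 0 ≤ K1 := by positivity
  set c : ℕ → ℝ := fun k => ∫ ω : Env 2, ci Φ (fun z => Ss a (ω z)) b k ^ 2 ∂P with hc
  have hc0 : ∀ k, 0 ≤ c k := fun k => integral_nonneg fun ω => sq_nonneg _
  set C5 := ∑ k ∈ range kε, c k with hC5
  have hC50 : 0 ≤ C5 := sum_nonneg fun k _ => hc0 k
  set M := 8 * (L * m1) + 1 with hM
  have hLm : 0 ≤ L * m1 := by positivity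
  refine ⟨J, M, by rw [hM]; linarith, ?_⟩
  have hlarge : ∀ᶠ s : ℕ in atTop, (2 * K1 + C5 / ε) * (8 / δ) ≤ Real.sqrt s :=
    ((Real.tendsto_sqrt_atTop.comp tendsto_natCast_atTop_atTop).eventually_ge_atTop _)
  filter_upwards [hlarge, eventually_ge_atTop 1] with s hs hs1
  have hsR : (1 : ℝ) ≤ s := by exact_mod_cast hs1
  set r := Real.sqrt ((s : ℝ) + 1) with hr
  have hr0 : 0 < r := Real.sqrt_pos.mpr (by positivity)
  have hr2 : r ^ 2 = s + 1 := Real.sq_sqrt (by positivity)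
  have hrs : r ≤ 2 * Real.sqrt s := by
    rw [hr]
    apply Real.sqrt_le_iff.mpr
    refine ⟨by positivity, ?_⟩
    rw [mul_pow, Real.sq_sqrt (by positivity)]
    linarith
  have hss : Real.sqrt s * Real.sqrt s = (s : ℝ) := Real.mul_self_sqrt (by positivity)
  have hs0 : 0 ≤ Real.sqrt s := Real.sqrt_nonneg _
  -- integrability and mean of the dominating function
  have iq : ∀ k, Integrable (fun ω : Env 2 => qq (fun z => Vs a (ω z)) b k s) P := by
    intro k
    simp only [qq]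
    exact ((integrable_const 1).add (ibb k)).add (itt k s)
  have Eq' : ∀ k, ∫ ω : Env 2, qq (fun z => Vs a (ω z)) b k s ∂P ≤ Q := by
    intro k
    simp only [qq]
    have j1 : Integrable (fun ω : Env 2 => 1 + bb (fun z => Vs a (ω z)) b k) P :=
      (integrable_const 1).add (ibb k)
    rw [integral_add j1 (itt k s), integral_add (integrable_const 1) (ibb k)]
    simp only [integral_const, probReal_univ, one_smul]
    have := Ebb k
    have := Ett k s
    rw [hQ]
    linarith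
  have iy : Integrable (fun ω : Env 2 => ε / r * ((s : ℝ) + 1 + ww (fun z => Vs a (ω z)) b s)) P :=
    ((integrable_const _).add (iww s)).const_mul _
  have Ey : ∫ ω : Env 2, ε / r * ((s : ℝ) + 1 + ww (fun z => Vs a (ω z)) b s) ∂P ≤
      ε * r * (1 + L * m1) := by
    rw [integral_const_mul, integral_add (integrable_const _) (iww s)]
    simp only [integral_const, probReal_univ, one_smul]
    have h := Eww s
    have h2 : (s : ℝ) + 1 + ∫ ω : Env 2, ww (fun z => Vs a (ω z)) b s ∂P ≤ r ^ 2 * (1 + L * m1) := by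
      rw [hr2]
      linarith
    calc ε / r * ((s : ℝ) + 1 + ∫ ω : Env 2, ww (fun z => Vs a (ω z)) b s ∂P)
        ≤ ε / r * (r ^ 2 * (1 + L * m1)) := mul_le_mul_of_nonneg_left h2 (by positivity)
      _ = ε * r * (1 + L * m1) := by field_simp
  have iG : ∀ k, Integrable (fun ω : Env 2 => GG (fun z => Vs a (ω z)) (fun z => Ts a (ω z))
      (fun z => Ss a (ω z)) Φ b J k s ε) P := by
    intro k
    simp only [GG]
    refine ((Integrable.add ?_ ?_).add (iq k)).add ?_
    · exact (((iq k).add (integrable_const 1)).add (iaa k)).const_mul _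
    · exact ((((((iee J k).div_const _).add ((iaa k).const_mul _)).div_const _).mul_const _).add
        iy).div_const _
    · exact (((ici k).mul_const _).add iy).div_const _
  have EG : ∀ k, ∫ ω : Env 2, GG (fun z => Vs a (ω z)) (fun z => Ts a (ω z))
      (fun z => Ss a (ω z)) Φ b J k s ε ∂P ≤ K1 + ε * r * K2 + r / (2 * ε) * c k := by
    intro k
    have i1 : Integrable (fun ω : Env 2 => (1 + (J : ℝ)) * (qq (fun z => Vs a (ω z)) b k s + 1 +
        aa (fun z => Vs a (ω z)) b k ^ 2)) P :=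
      (((iq k).add (integrable_const 1)).add (iaa k)).const_mul _
    have i2 : Integrable (fun ω : Env 2 => (ee (fun z => Ts a (ω z)) b J k ^ 2 / ε ^ 2 +
        ε ^ 2 * aa (fun z => Vs a (ω z)) b k ^ 2) / 2 * (r / ε)) P :=
      ((((iee J k).div_const _).add ((iaa k).const_mul _)).div_const _).mul_const _
    have i3 : Integrable (fun ω : Env 2 => ci Φ (fun z => Ss a (ω z)) b k ^ 2 * (r / ε)) P :=
      (ici k).mul_const _
    have e : ∀ ω : Env 2, GG (fun z => Vs a (ω z)) (fun z => Ts a (ω z))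
        (fun z => Ss a (ω z)) Φ b J k s ε =
        ((1 + (J : ℝ)) * (qq (fun z => Vs a (ω z)) b k s + 1 + aa (fun z => Vs a (ω z)) b k ^ 2) +
        ((ee (fun z => Ts a (ω z)) b J k ^ 2 / ε ^ 2 +
        ε ^ 2 * aa (fun z => Vs a (ω z)) b k ^ 2) / 2 * (r / ε) +
        ε / r * ((s : ℝ) + 1 + ww (fun z => Vs a (ω z)) b s)) / 2 +
        qq (fun z => Vs a (ω z)) b k s) +
        (ci Φ (fun z => Ss a (ω z)) b k ^ 2 * (r / ε) +
        ε / r * ((s : ℝ) + 1 + ww (fun z => Vs a (ω z)) b s)) / 2 := fun ω => rfl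
    simp only [e]
    have j1 : Integrable (fun ω : Env 2 => ((ee (fun z => Ts a (ω z)) b J k ^ 2 / ε ^ 2 +
        ε ^ 2 * aa (fun z => Vs a (ω z)) b k ^ 2) / 2 * (r / ε) +
        ε / r * ((s : ℝ) + 1 + ww (fun z => Vs a (ω z)) b s)) / 2) P := (i2.add iy).div_const _
    have j2 : Integrable (fun ω : Env 2 => (1 + (J : ℝ)) * (qq (fun z => Vs a (ω z)) b k s + 1 +
        aa (fun z => Vs a (ω z)) b k ^ 2) + ((ee (fun z => Ts a (ω z)) b J k ^ 2 / ε ^ 2 +
        ε ^ 2 * aa (fun z => Vs a (ω z)) b k ^ 2) / 2 * (r / ε) +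
        ε / r * ((s : ℝ) + 1 + ww (fun z => Vs a (ω z)) b s)) / 2) P := i1.add j1
    have j3 : Integrable (fun ω : Env 2 => (1 + (J : ℝ)) * (qq (fun z => Vs a (ω z)) b k s + 1 +
        aa (fun z => Vs a (ω z)) b k ^ 2) + ((ee (fun z => Ts a (ω z)) b J k ^ 2 / ε ^ 2 +
        ε ^ 2 * aa (fun z => Vs a (ω z)) b k ^ 2) / 2 * (r / ε) +
        ε / r * ((s : ℝ) + 1 + ww (fun z => Vs a (ω z)) b s)) / 2 +
        qq (fun z => Vs a (ω z)) b k s) P := j2.add (iq k)
    have j4 : Integrable (fun ω : Env 2 => (ci Φ (fun z => Ss a (ω z)) b k ^ 2 * (r / ε) +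
        ε / r * ((s : ℝ) + 1 + ww (fun z => Vs a (ω z)) b s)) / 2) P := (i3.add iy).div_const _
    rw [integral_add j3 j4, integral_add j2 (iq k), integral_add i1 j1, integral_div, integral_div,
      integral_add i2 iy, integral_add i3 iy]
    have b1 : ∫ ω : Env 2, (1 + (J : ℝ)) * (qq (fun z => Vs a (ω z)) b k s + 1 +
        aa (fun z => Vs a (ω z)) b k ^ 2) ∂P ≤ (1 + (J : ℝ)) * (Q + 1 + L ^ 2 * m2) := by
      have j5 : Integrable (fun ω : Env 2 => qq (fun z => Vs a (ω z)) b k s + 1) P :=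
        (iq k).add (integrable_const 1)
      rw [integral_const_mul, integral_add j5 (iaa k), integral_add (iq k) (integrable_const 1)]
      simp only [integral_const, probReal_univ, one_smul]
      apply mul_le_mul_of_nonneg_left _ (by positivity)
      have := Eq' k
      have := Eaa k
      linarith
    have b2 : ∫ ω : Env 2, (ee (fun z => Ts a (ω z)) b J k ^ 2 / ε ^ 2 +
        ε ^ 2 * aa (fun z => Vs a (ω z)) b k ^ 2) / 2 * (r / ε) ∂P ≤
        ε * r * ((L ^ 2 + L ^ 2 * m2) / 2) := by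
      rw [integral_mul_const, integral_div, integral_add ((iee J k).div_const _)
        ((iaa k).const_mul _), integral_div, integral_const_mul]
      have h1 : ∫ ω : Env 2, ee (fun z => Ts a (ω z)) b J k ^ 2 ∂P ≤ L ^ 2 * ε ^ 4 :=
        (Eee J k).trans (mul_le_mul_of_nonneg_left hJ (by positivity))
      have h2 := Eaa k
      have h3 : (∫ ω : Env 2, ee (fun z => Ts a (ω z)) b J k ^ 2 ∂P) / ε ^ 2 ≤ L ^ 2 * ε ^ 2 := by
        rw [div_le_iff₀ (by positivity)]
        nlinarith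
      have h4 : ε ^ 2 * ∫ ω : Env 2, aa (fun z => Vs a (ω z)) b k ^ 2 ∂P ≤ ε ^ 2 * (L ^ 2 * m2) :=
        mul_le_mul_of_nonneg_left h2 (by positivity)
      calc ((∫ ω : Env 2, ee (fun z => Ts a (ω z)) b J k ^ 2 ∂P) / ε ^ 2 +
          ε ^ 2 * ∫ ω : Env 2, aa (fun z => Vs a (ω z)) b k ^ 2 ∂P) / 2 * (r / ε)
          ≤ (L ^ 2 * ε ^ 2 + ε ^ 2 * (L ^ 2 * m2)) / 2 * (r / ε) :=
            mul_le_mul_of_nonneg_right (by linarith) (by positivity)
        _ = _ := by field_simp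
    have b3 : ∫ ω : Env 2, ci Φ (fun z => Ss a (ω z)) b k ^ 2 * (r / ε) ∂P = c k * (r / ε) := by
      rw [integral_mul_const]
    rw [b3]
    have hq := Eq' k
    have e2 : K1 + ε * r * K2 + r / (2 * ε) * c k = (1 + (J : ℝ)) * (Q + 1 + L ^ 2 * m2) +
        (ε * r * ((L ^ 2 + L ^ 2 * m2) / 2) + ε * r * (1 + L * m1)) / 2 + Q +
        (c k * (r / ε) + ε * r * (1 + L * m1)) / 2 := by
      rw [hK1, hK2]
      field_simp
      ring
    rw [e2]
    linarith
  set U : Env 2 → ℝ := fun ω => ∑ k ∈ Ico (max k1 1) s, 1 / Real.sqrt k *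
    GG (fun z => Vs a (ω z)) (fun z => Ts a (ω z)) (fun z => Ss a (ω z)) Φ b J k s ε with hU
  have iU : Integrable U P := integrable_finset_sum _ fun k _ => (iG k).const_mul _
  have hUU : ∀ ω : Env 2, UU (fun z => Vs a (ω z)) (fun z => Ts a (ω z)) (fun z => Ss a (ω z))
      Φ b J k1 s ≤ U ω := by
    intro ω
    rw [hU]
    unfold UU
    apply sum_le_sum
    intro k hk
    rw [mem_Ico] at hk
    exact uu_le _ _ _ _ _ _ _ _ _ (fun z => hVn _) (fun z => hTn _ _)
      ((le_max_right _ _).trans hk.1) hε0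
  have hUU0 : ∀ ω : Env 2, 0 ≤ U ω := by
    intro ω
    refine le_trans ?_ (hUU ω)
    unfold UU
    exact sum_nonneg fun k _ => Real.sqrt_nonneg _
  have hsub : Ico (max k1 1) s ⊆ range (s + 1) := by
    intro k hk
    rw [mem_Ico] at hk
    rw [mem_range]
    omega
  have EU : ∫ ω, U ω ∂P ≤ δ * s / 4 := by
    have e1 : ∫ ω, U ω ∂P = ∑ k ∈ Ico (max k1 1) s, 1 / Real.sqrt k *
        ∫ ω : Env 2, GG (fun z => Vs a (ω z)) (fun z => Ts a (ω z)) (fun z => Ss a (ω z))
          Φ b J k s ε ∂P := by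
      rw [hU, integral_finset_sum _ fun k _ => (iG k).const_mul _]
      exact sum_congr rfl fun k _ => integral_const_mul _ _
    rw [e1]
    have e2 : ∀ k ∈ Ico (max k1 1) s, 1 / Real.sqrt k *
        ∫ ω : Env 2, GG (fun z => Vs a (ω z)) (fun z => Ts a (ω z)) (fun z => Ss a (ω z))
          Φ b J k s ε ∂P ≤ 1 / Real.sqrt k * (K1 + ε * r * K2 + r / (2 * ε) * ε ^ 2) +
          r / (2 * ε) * (if k < kε then c k else 0) := by
      intro k hk
      rw [mem_Ico] at hk
      have hk1 : (1 : ℝ) ≤ k := by exact_mod_cast (le_max_right _ _).trans hk.1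
      have hsk : 1 / Real.sqrt k ≤ 1 := by
        rw [div_le_one (by positivity)]
        exact Real.one_le_sqrt.mpr hk1
      have hsk0 : 0 ≤ 1 / Real.sqrt k := by positivity
      have hrε : 0 ≤ r / (2 * ε) := by positivity
      refine (mul_le_mul_of_nonneg_left (EG k) hsk0).trans ?_
      by_cases hkk : k < kε
      · rw [if_pos hkk]
        have h1 : 1 / Real.sqrt k * (r / (2 * ε) * c k) ≤ 1 * (r / (2 * ε) * c k) :=
          mul_le_mul_of_nonneg_right hsk (mul_nonneg hrε (hc0 k))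
        have h2 : 0 ≤ 1 / Real.sqrt k * (r / (2 * ε) * ε ^ 2) := by positivity
        nlinarith
      · rw [if_neg hkk]
        have h1 : c k ≤ ε ^ 2 := hkε k (not_lt.mp hkk)
        have h2 : 1 / Real.sqrt k * (r / (2 * ε) * c k) ≤ 1 / Real.sqrt k * (r / (2 * ε) * ε ^ 2) :=
          mul_le_mul_of_nonneg_left (mul_le_mul_of_nonneg_left h1 hrε) hsk0
        nlinarith
    refine (sum_le_sum e2).trans ?_
    rw [sum_add_distrib, ← sum_mul, ← mul_sum]
    have s1 : ∑ k ∈ Ico (max k1 1) s, 1 / Real.sqrt (k : ℝ) ≤ 2 * Real.sqrt s :=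
      (sum_le_sum_of_subset_of_nonneg hsub fun k _ _ => by positivity).trans (sum_inv_sqrt s)
    have s2 : ∑ k ∈ Ico (max k1 1) s, (if k < kε then c k else 0) ≤ C5 := by
      rw [← sum_filter]
      apply sum_le_sum_of_subset_of_nonneg
      · intro k hk
        rw [mem_filter] at hk
        exact mem_range.mpr hk.2
      · exact fun k _ _ => hc0 k
    have hX : 0 ≤ K1 + ε * r * K2 + r / (2 * ε) * ε ^ 2 := by positivity
    have t1 : (∑ k ∈ Ico (max k1 1) s, 1 / Real.sqrt (k : ℝ)) *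
        (K1 + ε * r * K2 + r / (2 * ε) * ε ^ 2) ≤
        2 * Real.sqrt s * (K1 + ε * r * K2 + r / (2 * ε) * ε ^ 2) :=
      mul_le_mul_of_nonneg_right s1 hX
    have t2 : r / (2 * ε) * ∑ k ∈ Ico (max k1 1) s, (if k < kε then c k else 0) ≤
        r / (2 * ε) * C5 := mul_le_mul_of_nonneg_left s2 (by positivity)
    have t3 : r * Real.sqrt s ≤ 2 * s := by nlinarith
    have t4 : r / (2 * ε) * ε ^ 2 = r * ε / 2 := by field_simp
    have t5 : r / (2 * ε) * C5 ≤ Real.sqrt s * (C5 / ε) := by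
      have : r / (2 * ε) * C5 = r * (C5 / ε) / 2 := by field_simp
      rw [this]
      have : 0 ≤ C5 / ε := by positivity
      nlinarith
    have t6 : 2 * Real.sqrt s * (K1 + ε * r * K2 + r / (2 * ε) * ε ^ 2) ≤
        Real.sqrt s * (2 * K1) + s * (δ / 8) := by
      rw [t4, ← hεδ]
      have e3 : 2 * Real.sqrt s * (K1 + ε * r * K2 + r * ε / 2) =
          Real.sqrt s * (2 * K1) + r * Real.sqrt s * (ε * (2 * K2 + 1)) := by ring
      rw [e3]
      have : 0 ≤ ε * (2 * K2 + 1) := by positivity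
      nlinarith
    have t7 : Real.sqrt s * (2 * K1 + C5 / ε) ≤ s * (δ / 8) := by
      have h1 : 2 * K1 + C5 / ε ≤ Real.sqrt s * (δ / 8) := by
        have h2 : (2 * K1 + C5 / ε) * (8 / δ) * (δ / 8) ≤ Real.sqrt s * (δ / 8) :=
          mul_le_mul_of_nonneg_right hs (by positivity)
        have h3 : (2 * K1 + C5 / ε) * (8 / δ) * (δ / 8) = 2 * K1 + C5 / ε := by
          field_simp
        rwa [h3] at h2
      calc Real.sqrt s * (2 * K1 + C5 / ε) ≤ Real.sqrt s * (Real.sqrt s * (δ / 8)) :=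
            mul_le_mul_of_nonneg_left h1 hs0
        _ = s * (δ / 8) := by rw [← mul_assoc, hss]
    linarith
  have P1 : P.real {ω | δ * s ≤ U ω} ≤ 1 / 4 := by
    have h := mul_meas_ge_le_integral_of_nonneg (Eventually.of_forall hUU0) iU (δ * s)
    have hds : 0 < δ * s := by positivity
    by_contra hcon
    push Not at hcon
    nlinarith
  have P2 : P.real {ω | M * s ≤ ww (fun z => Vs a (ω z)) b s} ≤ 1 / 4 := by
    have hw0 : ∀ ω : Env 2, 0 ≤ ww (fun z => Vs a (ω z)) b s := by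
      intro ω
      unfold ww
      exact sum_nonneg fun z _ => div_nonneg (hVn _) (by positivity)
    have h := mul_meas_ge_le_integral_of_nonneg (Eventually.of_forall hw0) (iww s) (M * s)
    have hM0 : 0 < M := by rw [hM]; linarith
    have hds : 0 < M * s := by positivity
    have h2 := Eww s
    have h3 : L * m1 * ((s : ℝ) + 1) ≤ M * s / 4 := by
      rw [hM]
      nlinarith
    by_contra hcon
    push Not at hcon
    nlinarith
  have hcover : (Set.univ : Set (Env 2)) ⊆ {ω | GS a Φ b k1 J δ M s ω} ∪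
      ({ω | δ * s ≤ U ω} ∪ {ω | M * s ≤ ww (fun z => Vs a (ω z)) b s}) := by
    intro ω _
    by_cases h1 : δ * s ≤ U ω
    · exact Or.inr (Or.inl h1)
    · by_cases h2 : M * s ≤ ww (fun z => Vs a (ω z)) b s
      · exact Or.inr (Or.inr h2)
      · left
        exact ⟨(hUU ω).trans (not_le.mp h1).le, (not_le.mp h2).le⟩
  have h1 : (1 : ℝ) ≤ P.real {ω | GS a Φ b k1 J δ M s ω} + (P.real {ω | δ * s ≤ U ω} +
      P.real {ω | M * s ≤ ww (fun z => Vs a (ω z)) b s}) := by
    calc (1 : ℝ) = P.real Set.univ := probReal_univ.symm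
      _ ≤ P.real ({ω | GS a Φ b k1 J δ M s ω} ∪
          ({ω | δ * s ≤ U ω} ∪ {ω | M * s ≤ ww (fun z => Vs a (ω z)) b s})) :=
        measureReal_mono hcover
      _ ≤ _ := (measureReal_union_le _ _).trans
        (add_le_add_right (measureReal_union_le _ _) _)
  linarith

end Pool.Agent.Helper49.EXC
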