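import Pool.Agent.Helper99.EXC.GoalsS

/-!
# Project EXC, packet SZ
-/

open Finset

namespace Pool.Agent.Helper49.EXC

open Pool.Agent.Helper99.ERW Pool.Agent.Helper99.EXC

theorem nm_nonneg (x : Site 2) : 0 ≤ nm x := by
  unfold nm
  exact (abs_nonneg _).trans (le_max_left _ _)

theorem SZ (hSA : SA_stmt) (hSB : SB_stmt) (hSC : SC_stmt) (hSD : SD_stmt) (hSE : SE_stmt)
    (hSF : SF_stmt) (hSG : SG_stmt) (hSH : SH_stmt) : SZ_stmt := by
  intro a φ κ C0 ha0 ha1 hK
  obtain ⟨bA, hA⟩ := hSA a φ κ C0 hK
  obtain ⟨bB, hB⟩ := hSB a φ κ C0 ha0 ha1 hK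
  obtain ⟨bC, hC⟩ := hSC a φ κ C0 hK
  obtain ⟨bD, hD⟩ := hSD a φ κ C0 hK
  obtain ⟨bE, hE⟩ := hSE a φ κ C0 hK
  obtain ⟨bF, hF⟩ := hSF a φ κ C0 hK
  obtain ⟨bG, hG⟩ := hSG a φ κ C0 hK
  obtain ⟨bH, hH⟩ := hSH a φ κ C0 hK
  obtain ⟨b, hb⟩ : ∃ b : ℕ, b = bA + bB + bC + bD + bE + bF + bG + bH + 1 := ⟨_, rfl⟩
  obtain ⟨CA, kA, a1, a2, a3, a4, a5, a6, a7, a8⟩ := hA b (by omega)
  obtain ⟨CB, kB, b1⟩ := hB b (by omega)
  obtain ⟨CC, kC, c1, c2⟩ := hC b (by omega)
  obtain ⟨CD, kD, d1⟩ := hD b (by omega)
  obtain ⟨CE, kE, e1⟩ := hE b (by omega)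
  obtain ⟨CF, kF, f1⟩ := hF b (by omega)
  obtain ⟨CG, kG, g1, g2, g3⟩ := hG b (by omega)
  obtain ⟨CH, kH, h1⟩ := hH b (by omega)
  obtain ⟨C, hCd⟩ : ∃ C : ℝ, C = |CA| + |CB| + |CC| + |CD| + |CE| + |CF| + |CG| + |CH| + |C0| + 1 :=
    ⟨_, rfl⟩
  have nA := le_abs_self CA
  have nB := le_abs_self CB
  have nC := le_abs_self CC
  have nD := le_abs_self CD
  have nE := le_abs_self CE
  have nF := le_abs_self CF
  have nG := le_abs_self CG
  have nH := le_abs_self CH
  have n0 := le_abs_self C0
  have pA := abs_nonneg CA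
  have pB := abs_nonneg CB
  have pC := abs_nonneg CC
  have pD := abs_nonneg CD
  have pE := abs_nonneg CE
  have pF := abs_nonneg CF
  have pG := abs_nonneg CG
  have pH := abs_nonneg CH
  have p0 := abs_nonneg C0
  have lA : CA ≤ C := by linarith
  have lB : CB ≤ C := by linarith
  have lC : CC ≤ C := by linarith
  have lD : CD ≤ C := by linarith
  have lE : CE ≤ C := by linarith
  have lF : CF ≤ C := by linarith
  have lG : CG ≤ C := by linarith
  have lH : CH ≤ C := by linarith
  have l0 : C0 ≤ C := by linarith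
  have lone : 1 ≤ C := by linarith
  refine ⟨C, b, kA + kB + kC + kD + kE + kF + kG + kH, ?_⟩
  exact
    { kpos := hK.kpos
      cone := lone
      bone := by omega
      lap := hK.lap
      even := hK.even
      zero := hK.zero
      plow := fun x => by linarith [a1 x]
      hbd := fun x => (a2 x).trans (div_le_div_of_nonneg_right lA (by positivity))
      form := fun B f g => by
        refine (hK.form B f g).trans ?_
        refine mul_le_mul_of_nonneg_right ?_ (Real.sqrt_nonneg _)
        exact mul_le_mul_of_nonneg_right l0 (Real.sqrt_nonneg _)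
      ge := a3
      low := a4
      mu0 := fun k hk x => (b1 k (by omega) x).1
      mu1 := fun k hk x => ((b1 k (by omega) x).2.1).trans
        (div_le_div_of_nonneg_right lB (by positivity))
      muS := fun k hk x hx => (b1 k (by omega) x).2.2 hx
      out := fun k hk x hx => a5 k (by omega) x hx
      dout := fun k hk x hx => a6 k (by omega) x hx
      near := fun k hk x hx => (a7 k (by omega) x hx).trans lA
      up := fun k s hk hs x hx => by
        have := a8 k s (by omega) hs x hx
        linarith
      psiA := fun k hk z hz x => (c1 k (by omega) z hz x).trans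
        (mul_le_mul_of_nonneg_right lC (by positivity))
      psiO := fun k hk z hz x hx => (c2 k (by omega) z hz x hx).trans lC
      psi2 := fun k hk x => (d1 k (by omega) x).trans
        (mul_le_mul_of_nonneg_right lD (by positivity))
      dphi1 := fun k hk x => ((e1 k (by omega) x).1).trans
        (div_le_div_of_nonneg_right lE (by positivity))
      dphi2 := fun k hk x => ((e1 k (by omega) x).2).trans
        (div_le_div_of_nonneg_right lE (by positivity))
      far := fun k hk z hz y hy => by
        refine (f1 k (by omega) z hz y hy).trans ?_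
        have := nm_nonneg y
        refine div_le_div_of_nonneg_right ?_ (by positivity)
        exact mul_le_mul_of_nonneg_right lF (by positivity)
      hS := fun k hk x hx => g1 k (by omega) x hx
      h1 := fun k hk x => (g2 k (by omega) x).trans
        (div_le_div_of_nonneg_right lG (by positivity))
      hL := fun k hk x y => by
        refine (h1 k (by omega) x y).trans ?_
        refine mul_le_mul_of_nonneg_right ?_ (nm_nonneg _)
        exact div_le_div_of_nonneg_right lH (by positivity)
      h0 := fun k hk => g3 k (by omega) }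

end Pool.Agent.Helper49.EXC
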