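import Pool.Agent.Helper99.EXC.GoalsD

/-!
# Project EXC, packet TRV
-/

open Finset

namespace Pool.Agent.Helper49.EXC

open Pool.Agent.Helper99.ERW Pool.Agent.Helper99.EXC

theorem Bx_mono (b : ℕ) {k m : ℕ} (h : k ≤ m) : Bx b k ⊆ Bx b m := by
  intro z hz
  unfold Bx at hz ⊢
  rw [mem_box] at hz ⊢
  have h1 : b * 2 ^ k ≤ b * 2 ^ m := Nat.mul_le_mul_left _ (Nat.pow_le_pow_right (by norm_num) h)
  intro i
  have h2 := hz i
  have h3 : ((b * 2 ^ k : ℕ) : ℤ) ≤ ((b * 2 ^ m : ℕ) : ℤ) := by exact_mod_cast h1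
  exact h2.trans h3

theorem TRV (hLTM : LTM_stmt) : TRV_stmt := by
  intro a p V Tl Si φ Φ κ C b k1 hc hs k s hkk hks N s0
  obtain ⟨h1, h2, -⟩ := hLTM a p V Tl Si hc (Bx b (s + 1)) N s0
  have hV : ∀ z, 0 ≤ V z := fun z => (hc.tl0 z 0).trans (hc.tlV z 0)
  have hsub : Bx b k ⊆ Bx b (s + 1) := Bx_mono b (by omega)
  have hcL : ∀ L : Site 2 → ℕ, cL a p Φ b k L
      = ∑ z ∈ Bx b (s + 1), hk Φ k z * Sm a p z (L z) := by
    intro L
    unfold cL
    refine Finset.sum_subset hsub fun z _ hz => ?_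
    rw [hs.hS k hkk z hz, zero_mul]
  have h3 := h1 (hk Φ k)
  simp only [hcL]
  rw [h3, add_sub_cancel_left]
  refine (Rw_abs hc.p0 hc.p1 _ N _ s0).trans ?_
  have h4 := h2 (hk Φ k)
  have h5 : (fun s : St => |hk Φ k s.1 * dS a p s|)
      = fun s : St => |hk Φ k s.1| * |dS a p s| := by
    funext s
    exact abs_mul _ _
  rw [h5]
  refine h4.trans ?_
  have h6 : ∑ z ∈ Bx b (s + 1), |hk Φ k z| * V z
      = ∑ z ∈ Bx b k, |hk Φ k z| * V z := by
    symm
    refine Finset.sum_subset hsub fun z _ hz => ?_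
    rw [hs.hS k hkk z hz, abs_zero, zero_mul]
  rw [h6]
  unfold aa
  rw [← mul_div_assoc, Finset.mul_sum, Finset.sum_div]
  refine (Finset.sum_le_sum fun z _ => ?_).trans
    (Finset.sum_le_sum_of_subset_of_nonneg (Bx_mono b (Nat.le_succ k)) fun z _ _ => ?_)
  · have h7 := mul_le_mul_of_nonneg_right (hs.h1 k hkk z) (hV z)
    refine h7.trans (le_of_eq ?_)
    ring
  · have hC : 0 ≤ C := le_trans zero_le_one hs.cone
    have := hV z
    positivity

end Pool.Agent.Helper49.EXC
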